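import Mathlib

/-!
# Covering the nonzero residues mod `4k+1` by cyclic consecutive sums: the proof
-/

set_option autoImplicit false
set_option maxHeartbeats 4000000

namespace Pool.Agent.Results.MP_a9ea17_co.CyclicCover

/-- Reduction to an integer sequence: it is enough to cover each class `± c`, `1 ≤ c ≤ 2k`, and to have
a sum invertible mod `4k+1`. -/
theorem of_int (k : ℕ) (X : ℕ → ℤ)
    (hcov : ∀ c : ℤ, 1 ≤ c → c ≤ 2 * k → ∃ i, i < k ∧
      (X i = c ∨ X i = -c ∨ X i + X ((i + 1) % k) = c ∨ X i + X ((i + 1) % k) = -c ∨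
        X i + X ((i + 1) % k) = (4 * k + 1) - c ∨ X i + X ((i + 1) % k) = -((4 * k + 1) - c)))
    (u v : ℤ) (hu : u * (∑ i ∈ Finset.range k, X i) = 1 + (4 * k + 1) * v) :
    ∃ x : ℕ → ZMod (4 * k + 1),
      (∀ i < k, x i ≠ 0) ∧
      {z : ZMod (4 * k + 1) | z ≠ 0} =
        ⋃ i ∈ Finset.range k, {x i, -x i, x i + x ((i + 1) % k), -(x i + x ((i + 1) % k))} ∧
      Nat.Coprime (∑ i ∈ Finset.range k, x i).val (4 * k + 1) := by
  have ht : ((4 * k + 1 : ℤ) : ZMod (4 * k + 1)) = 0 := by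
    have : ((4 * k + 1 : ℤ) : ZMod (4 * k + 1)) = ((4 * k + 1 : ℕ) : ZMod (4 * k + 1)) := by
      push_cast; ring
    rw [this]; exact ZMod.natCast_self _
  set x : ℕ → ZMod (4 * k + 1) := fun i => ((X i : ℤ) : ZMod (4 * k + 1)) with hx
  set T : Finset (ZMod (4 * k + 1)) := (Finset.range k).biUnion
    (fun i => {x i, -x i, x i + x ((i + 1) % k), -(x i + x ((i + 1) % k))}) with hT
  have hcard : T.card ≤ 4 * k := by
    have := Finset.card_biUnion_le_card_mul (Finset.range k)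
      (fun i => ({x i, -x i, x i + x ((i + 1) % k), -(x i + x ((i + 1) % k))} :
        Finset (ZMod (4 * k + 1)))) 4 (fun i _ => Finset.card_le_four)
    rw [Finset.card_range] at this
    calc T.card ≤ k * 4 := this
      _ = 4 * k := by ring
  have hmem : ∀ z : ZMod (4 * k + 1), z ≠ 0 → z ∈ T := by
    intro z hz
    have key : ∀ c : ℤ, 1 ≤ c → c ≤ 2 * k →
        ((c : ZMod (4 * k + 1)) ∈ T ∧ (-c : ZMod (4 * k + 1)) ∈ T) := by
      intro c hc1 hc2
      obtain ⟨i, hi, h⟩ := hcov c hc1 hc2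
      have hTi : ∀ w, w ∈ ({x i, -x i, x i + x ((i + 1) % k), -(x i + x ((i + 1) % k))} :
          Finset (ZMod (4 * k + 1))) → w ∈ T := fun w hw =>
        Finset.mem_biUnion.2 ⟨i, Finset.mem_range.2 hi, hw⟩
      have hsum : x i + x ((i + 1) % k) = ((X i + X ((i + 1) % k) : ℤ) : ZMod (4 * k + 1)) := by
        simp only [hx]; push_cast; ring
      have hxi : x i = ((X i : ℤ) : ZMod (4 * k + 1)) := rfl
      have e : (((4 * k + 1) - c : ℤ) : ZMod (4 * k + 1)) = -(c : ZMod (4 * k + 1)) := by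
        rw [Int.cast_sub, ht]; ring
      rcases h with h | h | h | h | h | h
      · refine ⟨hTi _ ?_, hTi _ ?_⟩ <;>
          simp only [Finset.mem_insert, Finset.mem_singleton, hxi, h] <;> simp
      · refine ⟨hTi _ ?_, hTi _ ?_⟩ <;>
          simp only [Finset.mem_insert, Finset.mem_singleton, hxi, h] <;> simp
      · refine ⟨hTi _ ?_, hTi _ ?_⟩ <;>
          simp only [Finset.mem_insert, Finset.mem_singleton, hsum, h] <;> simp
      · refine ⟨hTi _ ?_, hTi _ ?_⟩ <;>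
          simp only [Finset.mem_insert, Finset.mem_singleton, hsum, h] <;> simp
      · refine ⟨hTi _ ?_, hTi _ ?_⟩ <;>
          simp only [Finset.mem_insert, Finset.mem_singleton, hsum, h, e] <;> simp
      · refine ⟨hTi _ ?_, hTi _ ?_⟩ <;>
          simp only [Finset.mem_insert, Finset.mem_singleton, hsum, h, Int.cast_neg, e] <;> simp
    have hzv : ((z.val : ℤ) : ZMod (4 * k + 1)) = z := by
      rw [Int.cast_natCast]; exact ZMod.natCast_zmod_val z
    have hlt : z.val < 4 * k + 1 := ZMod.val_lt z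
    have hpos : z.val ≠ 0 := fun h => hz ((ZMod.val_eq_zero z).1 h)
    by_cases h2 : z.val ≤ 2 * k
    · have := (key (z.val : ℤ) (by omega) (by omega)).1
      rwa [hzv] at this
    · have := (key ((4 * k + 1 : ℤ) - z.val) (by omega) (by omega)).2
      rw [Int.cast_sub, ht, hzv] at this
      simpa using this
  have h0 : (0 : ZMod (4 * k + 1)) ∉ T := by
    intro h0
    have hall : T = Finset.univ := by
      ext z
      simp only [Finset.mem_univ, iff_true]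
      by_cases hz : z = 0
      · rw [hz]; exact h0
      · exact hmem z hz
    rw [hall, Finset.card_univ, ZMod.card] at hcard
    omega
  refine ⟨x, ?_, ?_, ?_⟩
  · intro i hi h
    exact h0 (Finset.mem_biUnion.2 ⟨i, Finset.mem_range.2 hi, by simp [h]⟩)
  · ext z
    simp only [Set.mem_ofPred_eq, Set.mem_iUnion]
    constructor
    · intro hz
      obtain ⟨i, hi, hzi⟩ := Finset.mem_biUnion.1 (hmem z hz)
      refine ⟨i, hi, ?_⟩
      simpa [Finset.mem_insert, Finset.mem_singleton] using hzi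
    · rintro ⟨i, hi, hzi⟩ rfl
      refine h0 (Finset.mem_biUnion.2 ⟨i, hi, ?_⟩)
      simpa [Finset.mem_insert, Finset.mem_singleton] using hzi
  · have hS : (∑ i ∈ Finset.range k, x i) = ((∑ i ∈ Finset.range k, X i : ℤ) : ZMod (4 * k + 1)) := by
      rw [Int.cast_sum]
    have hunit : IsUnit (∑ i ∈ Finset.range k, x i) := by
      refine IsUnit.of_mul_eq_one (u : ZMod (4 * k + 1)) ?_
      have hu' : (∑ i ∈ Finset.range k, X i) * u = 1 + (4 * k + 1) * v := by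
        rw [mul_comm]; exact hu
      rw [hS, ← Int.cast_mul, hu', Int.cast_add, Int.cast_mul, ht]
      simp
    have := (ZMod.isUnit_iff_coprime (∑ i ∈ Finset.range k, x i).val (4 * k + 1)).1
      (by rw [ZMod.natCast_zmod_val]; exact hunit)
    exact this

/-- the same with the cyclic successor made explicit -/
theorem of_int' (k : ℕ) (hk : 2 < k) (X : ℕ → ℤ)
    (hcov : ∀ c : ℕ, 1 ≤ c → c ≤ 2 * k →
      (∃ i, i < k ∧ (X i = c ∨ X i = -c)) ∨
      (∃ i, i + 1 < k ∧ (X i + X (i + 1) = c ∨ X i + X (i + 1) = -c ∨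
        X i + X (i + 1) = (4 * k + 1) - c ∨ X i + X (i + 1) = -((4 * k + 1) - c))) ∨
      (X (k - 1) + X 0 = c ∨ X (k - 1) + X 0 = -c ∨
        X (k - 1) + X 0 = (4 * k + 1) - c ∨ X (k - 1) + X 0 = -((4 * k + 1) - c)))
    (u v : ℤ) (hu : u * (∑ i ∈ Finset.range k, X i) = 1 + (4 * k + 1) * v) :
    ∃ x : ℕ → ZMod (4 * k + 1),
      (∀ i < k, x i ≠ 0) ∧
      {z : ZMod (4 * k + 1) | z ≠ 0} =
        ⋃ i ∈ Finset.range k, {x i, -x i, x i + x ((i + 1) % k), -(x i + x ((i + 1) % k))} ∧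
      Nat.Coprime (∑ i ∈ Finset.range k, x i).val (4 * k + 1) := by
  refine of_int k X (fun c hc1 hc2 => ?_) u v hu
  obtain ⟨n, rfl⟩ := Int.eq_ofNat_of_zero_le (by omega : 0 ≤ c)
  rcases hcov n (by omega) (by omega) with ⟨i, hi, h⟩ | ⟨i, hi, h⟩ | h
  · exact ⟨i, hi, by rcases h with h | h <;> simp [h]⟩
  · refine ⟨i, by omega, ?_⟩
    rw [Nat.mod_eq_of_lt hi]
    rcases h with h | h | h | h <;> simp [h]
  · refine ⟨k - 1, by omega, ?_⟩
    rw [show k - 1 + 1 = k by omega, Nat.mod_self]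
    rcases h with h | h | h | h <;> simp [h]

/-! ## `k = 4m`, `m ≥ 2` -/

/-- the sequence for `k = 4m` -/
def X0 (m i : ℕ) : ℤ :=
  if i < 2 * m - 1 then (if i % 2 = 0 then 5 * m + 2 + (i / 2 : ℕ) else -7 * m - 1 + (i / 2 : ℕ))
  else if i < 4 * m - 3 then
    (if i % 2 = 1 then 8 * m - ((i + 1 - 2 * m) / 2 : ℕ) else -4 * m - 1 - ((i - 2 * m) / 2 : ℕ))
  else if i = 4 * m - 3 then -6 * m - 2
  else if i = 4 * m - 2 then 2 * m + 2
  else -1

theorem X0_sum1 (m : ℕ) (hm : 2 ≤ m) (j : ℕ) (hj : j ≤ m - 1) :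
    ∑ i ∈ Finset.range (2 * j), X0 m i = (j : ℤ) * (-2 * m + 1) + j * (j - 1) := by
  induction j with
  | zero => simp
  | succ j ih =>
    have e : 2 * (j + 1) = 2 * j + 1 + 1 := by ring
    rw [e, Finset.sum_range_succ, Finset.sum_range_succ, ih (by omega)]
    have h1 : X0 m (2 * j) = 5 * m + 2 + j := by
      unfold X0; split_ifs <;> omega
    have h2 : X0 m (2 * j + 1) = -7 * m - 1 + j := by
      unfold X0; split_ifs <;> omega
    rw [h1, h2]; push_cast; ring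

theorem X0_sum2 (m : ℕ) (hm : 2 ≤ m) (j : ℕ) (hj : j ≤ m - 1) :
    ∑ i ∈ Finset.range (2 * m - 1 + 2 * j), X0 m i =
      -(m : ℤ) ^ 2 + 6 * m + 2 + (j : ℤ) * (4 * m - 1) - j * (j - 1) := by
  induction j with
  | zero =>
    have e : 2 * m - 1 + 2 * 0 = 2 * (m - 1) + 1 := by omega
    rw [e, Finset.sum_range_succ, X0_sum1 m hm (m - 1) (by omega)]
    have h1 : X0 m (2 * (m - 1)) = 5 * m + 2 + (m - 1) := by
      unfold X0; split_ifs <;> omega
    have h2 : ((m - 1 : ℕ) : ℤ) = m - 1 := by omega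
    rw [h1, h2]; push_cast; ring
  | succ j ih =>
    have e : 2 * m - 1 + 2 * (j + 1) = 2 * m - 1 + 2 * j + 1 + 1 := by ring
    rw [e, Finset.sum_range_succ, Finset.sum_range_succ, ih (by omega)]
    have h1 : X0 m (2 * m - 1 + 2 * j) = 8 * m - j := by
      unfold X0; split_ifs <;> omega
    have h2 : X0 m (2 * m - 1 + 2 * j + 1) = -4 * m - 1 - j := by
      unfold X0; split_ifs <;> omega
    rw [h1, h2]; push_cast; ring

theorem X0_sum (m : ℕ) (hm : 2 ≤ m) :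
    ∑ i ∈ Finset.range (4 * m), X0 m i = 2 * (m : ℤ) ^ 2 := by
  have e : 4 * m = 2 * m - 1 + 2 * (m - 1) + 1 + 1 + 1 := by omega
  rw [e, Finset.sum_range_succ, Finset.sum_range_succ, Finset.sum_range_succ,
    X0_sum2 m hm (m - 1) (by omega)]
  have h1 : X0 m (2 * m - 1 + 2 * (m - 1)) = -6 * m - 2 := by
    unfold X0; split_ifs <;> omega
  have h2 : X0 m (2 * m - 1 + 2 * (m - 1) + 1) = 2 * m + 2 := by
    unfold X0; split_ifs <;> omega
  have h3 : X0 m (2 * m - 1 + 2 * (m - 1) + 1 + 1) = -1 := by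
    unfold X0; split_ifs <;> omega
  have h4 : ((m - 1 : ℕ) : ℤ) = m - 1 := by omega
  rw [h1, h2, h3, h4]; ring

theorem X0_cov (m : ℕ) (hm : 2 ≤ m) (c : ℕ) (h1 : 1 ≤ c) (h2 : c ≤ 2 * (4 * m)) :
    (∃ i, i < 4 * m ∧ (X0 m i = c ∨ X0 m i = -c)) ∨
      (∃ i, i + 1 < 4 * m ∧ (X0 m i + X0 m (i + 1) = c ∨ X0 m i + X0 m (i + 1) = -c ∨
        X0 m i + X0 m (i + 1) = (4 * (4 * m : ℕ) + 1) - c ∨
        X0 m i + X0 m (i + 1) = -((4 * (4 * m : ℕ) + 1) - c))) ∨
      (X0 m (4 * m - 1) + X0 m 0 = c ∨ X0 m (4 * m - 1) + X0 m 0 = -c ∨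
        X0 m (4 * m - 1) + X0 m 0 = (4 * (4 * m : ℕ) + 1) - c ∨
        X0 m (4 * m - 1) + X0 m 0 = -((4 * (4 * m : ℕ) + 1) - c)) := by
  by_cases c1 : c = 1
  · exact Or.inl ⟨4 * m - 1, by omega, Or.inr (by unfold X0; split_ifs <;> omega)⟩
  by_cases c2 : c ≤ 2 * m - 1
  · refine Or.inr (Or.inl ⟨2 * m - 1 - c, by omega, Or.inr (Or.inl ?_)⟩)
    unfold X0; split_ifs <;> omega
  by_cases c3 : c = 2 * m
  · refine Or.inr (Or.inl ⟨2 * m - 2, by omega, Or.inr (Or.inr (Or.inl ?_))⟩)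
    unfold X0; split_ifs <;> omega
  by_cases c4 : c = 2 * m + 1
  · refine Or.inr (Or.inl ⟨4 * m - 2, by omega, Or.inl ?_⟩)
    unfold X0; split_ifs <;> omega
  by_cases c5 : c = 2 * m + 2
  · exact Or.inl ⟨4 * m - 2, by omega, Or.inl (by unfold X0; split_ifs <;> omega)⟩
  by_cases c6 : c ≤ 4 * m - 1
  · refine Or.inr (Or.inl ⟨6 * m - 2 - c, by omega, Or.inl ?_⟩)
    unfold X0; split_ifs <;> omega
  by_cases c7 : c = 4 * m
  · refine Or.inr (Or.inl ⟨4 * m - 3, by omega, Or.inr (Or.inl ?_)⟩)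
    unfold X0; split_ifs <;> omega
  by_cases c8 : c ≤ 5 * m - 1
  · exact Or.inl ⟨2 * m + 2 * (c - 4 * m - 1), by omega,
      Or.inr (by unfold X0; split_ifs <;> omega)⟩
  by_cases c9 : c = 5 * m
  · refine Or.inr (Or.inl ⟨4 * m - 4, by omega, Or.inr (Or.inr (Or.inr ?_))⟩)
    unfold X0; split_ifs <;> omega
  by_cases c10 : c = 5 * m + 1
  · refine Or.inr (Or.inr (Or.inl ?_))
    unfold X0; split_ifs <;> omega
  by_cases c11 : c ≤ 6 * m + 1
  · exact Or.inl ⟨2 * (c - 5 * m - 2), by omega, Or.inl (by unfold X0; split_ifs <;> omega)⟩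
  by_cases c12 : c = 6 * m + 2
  · exact Or.inl ⟨4 * m - 3, by omega, Or.inr (by unfold X0; split_ifs <;> omega)⟩
  by_cases c13 : c ≤ 7 * m + 1
  · exact Or.inl ⟨2 * (7 * m + 1 - c) + 1, by omega, Or.inr (by unfold X0; split_ifs <;> omega)⟩
  · exact Or.inl ⟨2 * m - 1 + 2 * (8 * m - c), by omega,
      Or.inl (by unfold X0; split_ifs <;> omega)⟩

/-! ## `k = 4m + 2`, `m ≥ 1` -/

/-- the sequence for `k = 4m + 2` -/
def X2 (m i : ℕ) : ℤ :=
  if i < 2 * m then (if i % 2 = 0 then 7 * m + 5 + (i / 2 : ℕ) else -5 * m - 2 + (i / 2 : ℕ))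
  else if i < 4 * m - 1 then
    (if i % 2 = 0 then -7 * m - 3 + ((i - 2 * m) / 2 : ℕ) else 5 * m + 4 + ((i - 2 * m) / 2 : ℕ))
  else if i = 4 * m - 1 then -4 * m - 2
  else if i = 4 * m then 2 * m + 2
  else -1

theorem X2_sum1 (m : ℕ) (j : ℕ) (hj : j ≤ m) :
    ∑ i ∈ Finset.range (2 * j), X2 m i = (j : ℤ) * (2 * m + 3) + j * (j - 1) := by
  induction j with
  | zero => simp
  | succ j ih =>
    have e : 2 * (j + 1) = 2 * j + 1 + 1 := by ring
    rw [e, Finset.sum_range_succ, Finset.sum_range_succ, ih (by omega)]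
    have h1 : X2 m (2 * j) = 7 * m + 5 + j := by
      unfold X2; split_ifs <;> omega
    have h2 : X2 m (2 * j + 1) = -5 * m - 2 + j := by
      unfold X2; split_ifs <;> omega
    rw [h1, h2]; push_cast; ring

theorem X2_sum2 (m : ℕ) (j : ℕ) (hj : j ≤ m - 1) :
    ∑ i ∈ Finset.range (2 * m + 2 * j), X2 m i =
      (m : ℤ) * (2 * m + 3) + m * (m - 1) + (j : ℤ) * (-2 * m + 1) + j * (j - 1) := by
  induction j with
  | zero =>
    rw [Nat.mul_zero, Nat.add_zero, X2_sum1 m m le_rfl]; push_cast; ring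
  | succ j ih =>
    have e : 2 * m + 2 * (j + 1) = 2 * m + 2 * j + 1 + 1 := by ring
    rw [e, Finset.sum_range_succ, Finset.sum_range_succ, ih (by omega)]
    have h1 : X2 m (2 * m + 2 * j) = -7 * m - 3 + j := by
      unfold X2; split_ifs <;> omega
    have h2 : X2 m (2 * m + 2 * j + 1) = 5 * m + 4 + j := by
      unfold X2; split_ifs <;> omega
    rw [h1, h2]; push_cast; ring

theorem X2_sum (m : ℕ) (hm : 1 ≤ m) :
    ∑ i ∈ Finset.range (4 * m + 2), X2 m i = 2 * (m : ℤ) ^ 2 - 6 * m - 4 := by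
  have e : 4 * m + 2 = 2 * m + 2 * (m - 1) + 1 + 1 + 1 + 1 := by omega
  rw [e, Finset.sum_range_succ, Finset.sum_range_succ, Finset.sum_range_succ,
    Finset.sum_range_succ, X2_sum2 m (m - 1) (by omega)]
  have h0 : X2 m (2 * m + 2 * (m - 1)) = -7 * m - 3 + (m - 1) := by
    unfold X2; split_ifs <;> omega
  have h1 : X2 m (2 * m + 2 * (m - 1) + 1) = -4 * m - 2 := by
    unfold X2; split_ifs <;> omega
  have h2 : X2 m (2 * m + 2 * (m - 1) + 1 + 1) = 2 * m + 2 := by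
    unfold X2; split_ifs <;> omega
  have h3 : X2 m (2 * m + 2 * (m - 1) + 1 + 1 + 1) = -1 := by
    unfold X2; split_ifs <;> omega
  have h4 : ((m - 1 : ℕ) : ℤ) = m - 1 := by omega
  rw [h0, h1, h2, h3, h4]; ring

theorem X2_cov (m : ℕ) (hm : 1 ≤ m) (c : ℕ) (h1 : 1 ≤ c) (h2 : c ≤ 2 * (4 * m + 2)) :
    (∃ i, i < 4 * m + 2 ∧ (X2 m i = c ∨ X2 m i = -c)) ∨
      (∃ i, i + 1 < 4 * m + 2 ∧ (X2 m i + X2 m (i + 1) = c ∨ X2 m i + X2 m (i + 1) = -c ∨
        X2 m i + X2 m (i + 1) = (4 * (4 * m + 2 : ℕ) + 1) - c ∨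
        X2 m i + X2 m (i + 1) = -((4 * (4 * m + 2 : ℕ) + 1) - c))) ∨
      (X2 m (4 * m + 2 - 1) + X2 m 0 = c ∨ X2 m (4 * m + 2 - 1) + X2 m 0 = -c ∨
        X2 m (4 * m + 2 - 1) + X2 m 0 = (4 * (4 * m + 2 : ℕ) + 1) - c ∨
        X2 m (4 * m + 2 - 1) + X2 m 0 = -((4 * (4 * m + 2 : ℕ) + 1) - c)) := by
  by_cases c1 : c = 1
  · exact Or.inl ⟨4 * m + 1, by omega, Or.inr (by unfold X2; split_ifs <;> omega)⟩
  by_cases c2 : c ≤ 2 * m - 1
  · refine Or.inr (Or.inl ⟨2 * m + (2 * m - 1 - c), by omega, Or.inr (Or.inl ?_)⟩)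
    unfold X2; split_ifs <;> omega
  by_cases c3 : c = 2 * m
  · refine Or.inr (Or.inl ⟨4 * m - 1, by omega, Or.inr (Or.inl ?_)⟩)
    unfold X2; split_ifs <;> omega
  by_cases c4 : c = 2 * m + 1
  · refine Or.inr (Or.inl ⟨4 * m, by omega, Or.inl ?_⟩)
    unfold X2; split_ifs <;> omega
  by_cases c5 : c = 2 * m + 2
  · exact Or.inl ⟨4 * m, by omega, Or.inl (by unfold X2; split_ifs <;> omega)⟩
  by_cases c6 : c ≤ 4 * m + 1
  · refine Or.inr (Or.inl ⟨c - 2 * m - 3, by omega, Or.inl ?_⟩)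
    unfold X2; split_ifs <;> omega
  by_cases c7 : c = 4 * m + 2
  · exact Or.inl ⟨4 * m - 1, by omega, Or.inr (by unfold X2; split_ifs <;> omega)⟩
  by_cases c8 : c ≤ 5 * m + 2
  · exact Or.inl ⟨2 * (5 * m + 2 - c) + 1, by omega,
      Or.inr (by unfold X2; split_ifs <;> omega)⟩
  by_cases c9 : c = 5 * m + 3
  · refine Or.inr (Or.inl ⟨2 * m - 1, by omega, Or.inr (Or.inr (Or.inr ?_))⟩)
    unfold X2; split_ifs <;> omega
  by_cases c10 : c ≤ 6 * m + 2
  · exact Or.inl ⟨2 * m + 2 * (c - 5 * m - 4) + 1, by omega,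
      Or.inl (by unfold X2; split_ifs <;> omega)⟩
  by_cases c11 : c = 6 * m + 3
  · refine Or.inr (Or.inl ⟨4 * m - 2, by omega, Or.inr (Or.inr (Or.inr ?_))⟩)
    unfold X2; split_ifs <;> omega
  by_cases c12 : c ≤ 7 * m + 3
  · exact Or.inl ⟨2 * m + 2 * (7 * m + 3 - c), by omega,
      Or.inr (by unfold X2; split_ifs <;> omega)⟩
  by_cases c13 : c = 7 * m + 4
  · refine Or.inr (Or.inr (Or.inl ?_))
    unfold X2; split_ifs <;> omega
  · exact Or.inl ⟨2 * (c - 7 * m - 5), by omega, Or.inl (by unfold X2; split_ifs <;> omega)⟩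

/-! ## `k = 2m + 1`, `m ≥ 3` -/

/-- the sequence for `k = 2m + 1` -/
def X1 (m i : ℕ) : ℤ :=
  if i < 2 * m - 5 then (if i % 2 = 0 then 2 * m + 3 + (i / 2 : ℕ) else -4 * m - 1 + (i / 2 : ℕ))
  else if i = 2 * m - 5 then 2 * m + 1
  else if i = 2 * m - 4 then -2 * m + 1
  else if i = 2 * m - 3 then -3
  else if i = 2 * m - 2 then -1
  else if i = 2 * m - 1 then 3 * m + 2
  else 2 * m

theorem X1_sum1 (m : ℕ) (j : ℕ) (hj : j + 3 ≤ m) :
    ∑ i ∈ Finset.range (2 * j), X1 m i = (j : ℤ) * (-2 * m + 2) + j * (j - 1) := by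
  induction j with
  | zero => simp
  | succ j ih =>
    have e : 2 * (j + 1) = 2 * j + 1 + 1 := by ring
    rw [e, Finset.sum_range_succ, Finset.sum_range_succ, ih (by omega)]
    have h1 : X1 m (2 * j) = 2 * m + 3 + j := by
      unfold X1; split_ifs <;> omega
    have h2 : X1 m (2 * j + 1) = -4 * m - 1 + j := by
      unfold X1; split_ifs <;> omega
    rw [h1, h2]; push_cast; ring

theorem X1_sum (m : ℕ) (hm : 3 ≤ m) :
    ∑ i ∈ Finset.range (2 * m + 1), X1 m i = -(m : ℤ) ^ 2 + 9 * m + 6 := by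
  have e : 2 * m + 1 = 2 * (m - 3) + 1 + 1 + 1 + 1 + 1 + 1 + 1 := by omega
  rw [e, Finset.sum_range_succ, Finset.sum_range_succ, Finset.sum_range_succ,
    Finset.sum_range_succ, Finset.sum_range_succ, Finset.sum_range_succ,
    Finset.sum_range_succ, X1_sum1 m (m - 3) (by omega)]
  have h0 : X1 m (2 * (m - 3)) = 3 * m := by
    unfold X1; split_ifs <;> omega
  have h1 : X1 m (2 * (m - 3) + 1) = 2 * m + 1 := by
    unfold X1; split_ifs <;> omega
  have h2 : X1 m (2 * (m - 3) + 1 + 1) = -2 * m + 1 := by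
    unfold X1; split_ifs <;> omega
  have h3 : X1 m (2 * (m - 3) + 1 + 1 + 1) = -3 := by
    unfold X1; split_ifs <;> omega
  have h4 : X1 m (2 * (m - 3) + 1 + 1 + 1 + 1) = -1 := by
    unfold X1; split_ifs <;> omega
  have h5 : X1 m (2 * (m - 3) + 1 + 1 + 1 + 1 + 1) = 3 * m + 2 := by
    unfold X1; split_ifs <;> omega
  have h6 : X1 m (2 * (m - 3) + 1 + 1 + 1 + 1 + 1 + 1) = 2 * m := by
    unfold X1; split_ifs <;> omega
  have h7 : ((m - 3 : ℕ) : ℤ) = m - 3 := by omega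
  rw [h0, h1, h2, h3, h4, h5, h6, h7]; ring

theorem X1_cov (m : ℕ) (hm : 3 ≤ m) (c : ℕ) (h1 : 1 ≤ c) (h2 : c ≤ 2 * (2 * m + 1)) :
    (∃ i, i < 2 * m + 1 ∧ (X1 m i = c ∨ X1 m i = -c)) ∨
      (∃ i, i + 1 < 2 * m + 1 ∧ (X1 m i + X1 m (i + 1) = c ∨ X1 m i + X1 m (i + 1) = -c ∨
        X1 m i + X1 m (i + 1) = (4 * (2 * m + 1 : ℕ) + 1) - c ∨
        X1 m i + X1 m (i + 1) = -((4 * (2 * m + 1 : ℕ) + 1) - c))) ∨
      (X1 m (2 * m + 1 - 1) + X1 m 0 = c ∨ X1 m (2 * m + 1 - 1) + X1 m 0 = -c ∨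
        X1 m (2 * m + 1 - 1) + X1 m 0 = (4 * (2 * m + 1 : ℕ) + 1) - c ∨
        X1 m (2 * m + 1 - 1) + X1 m 0 = -((4 * (2 * m + 1 : ℕ) + 1) - c)) := by
  by_cases c1 : c = 1
  · exact Or.inl ⟨2 * m - 2, by omega, Or.inr (by unfold X1; split_ifs <;> omega)⟩
  by_cases c2 : c = 2
  · refine Or.inr (Or.inl ⟨2 * m - 5, by omega, Or.inl ?_⟩)
    unfold X1; split_ifs <;> omega
  by_cases c3 : c = 3
  · exact Or.inl ⟨2 * m - 3, by omega, Or.inr (by unfold X1; split_ifs <;> omega)⟩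
  by_cases c4 : c = 4
  · refine Or.inr (Or.inl ⟨2 * m - 3, by omega, Or.inr (Or.inl ?_)⟩)
    unfold X1; split_ifs <;> omega
  by_cases c5 : c ≤ 2 * m - 2
  · refine Or.inr (Or.inl ⟨2 * m - 2 - c, by omega, Or.inr (Or.inl ?_)⟩)
    unfold X1; split_ifs <;> omega
  by_cases c6 : c = 2 * m - 1
  · exact Or.inl ⟨2 * m - 4, by omega, Or.inr (by unfold X1; split_ifs <;> omega)⟩
  by_cases c7 : c = 2 * m
  · exact Or.inl ⟨2 * m, by omega, Or.inl (by unfold X1; split_ifs <;> omega)⟩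
  by_cases c8 : c = 2 * m + 1
  · exact Or.inl ⟨2 * m - 5, by omega, Or.inl (by unfold X1; split_ifs <;> omega)⟩
  by_cases c9 : c = 2 * m + 2
  · refine Or.inr (Or.inl ⟨2 * m - 4, by omega, Or.inr (Or.inl ?_)⟩)
    unfold X1; split_ifs <;> omega
  by_cases c10 : c ≤ 3 * m
  · exact Or.inl ⟨2 * (c - 2 * m - 3), by omega, Or.inl (by unfold X1; split_ifs <;> omega)⟩
  by_cases c11 : c = 3 * m + 1
  · refine Or.inr (Or.inl ⟨2 * m - 2, by omega, Or.inl ?_⟩)
    unfold X1; split_ifs <;> omega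
  by_cases c12 : c = 3 * m + 2
  · exact Or.inl ⟨2 * m - 1, by omega, Or.inl (by unfold X1; split_ifs <;> omega)⟩
  by_cases c13 : c = 3 * m + 3
  · refine Or.inr (Or.inl ⟨2 * m - 1, by omega, Or.inr (Or.inr (Or.inl ?_))⟩)
    unfold X1; split_ifs <;> omega
  by_cases c14 : c = 3 * m + 4
  · refine Or.inr (Or.inl ⟨2 * m - 6, by omega, Or.inr (Or.inr (Or.inl ?_))⟩)
    unfold X1; split_ifs <;> omega
  by_cases c15 : c ≤ 4 * m + 1
  · exact Or.inl ⟨2 * (4 * m + 1 - c) + 1, by omega,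
      Or.inr (by unfold X1; split_ifs <;> omega)⟩
  · refine Or.inr (Or.inr (Or.inr (Or.inr (Or.inl ?_))))
    unfold X1; split_ifs <;> omega

/-- Q1 holds for every `k > 2`. -/
theorem main (k : ℕ) (hk : 2 < k) :
    ∃ x : ℕ → ZMod (4 * k + 1),
      (∀ i < k, x i ≠ 0) ∧
      {z : ZMod (4 * k + 1) | z ≠ 0} =
        ⋃ i ∈ Finset.range k, {x i, -x i, x i + x ((i + 1) % k), -(x i + x ((i + 1) % k))} ∧
      Nat.Coprime (∑ i ∈ Finset.range k, x i).val (4 * k + 1) := by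
  by_cases h3 : k = 3
  · subst h3
    refine of_int' 3 (by norm_num) (fun i => if i = 0 then 1 else if i = 1 then -6 else -3)
      (fun c h1 h2 => ?_) 8 (-5) (by decide)
    have h2' : c ≤ 6 := by omega
    interval_cases c
    · exact Or.inl ⟨0, by norm_num, by norm_num⟩
    · exact Or.inr (Or.inr (by norm_num))
    · exact Or.inl ⟨2, by norm_num, by norm_num⟩
    · exact Or.inr (Or.inl ⟨1, by norm_num, by norm_num⟩)
    · exact Or.inr (Or.inl ⟨0, by norm_num, by norm_num⟩)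
    · exact Or.inl ⟨1, by norm_num, by norm_num⟩
  by_cases h4 : k = 4
  · subst h4
    refine of_int' 4 (by norm_num)
      (fun i => if i = 0 then 1 else if i = 1 then -8 else if i = 2 then 2 else -5)
      (fun c h1 h2 => ?_) 5 (-3) (by decide)
    have h2' : c ≤ 8 := by omega
    interval_cases c
    · exact Or.inl ⟨0, by norm_num, by norm_num⟩
    · exact Or.inl ⟨2, by norm_num, by norm_num⟩
    · exact Or.inr (Or.inl ⟨2, by norm_num, by norm_num⟩)
    · exact Or.inr (Or.inr (by norm_num))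
    · exact Or.inl ⟨3, by norm_num, by norm_num⟩
    · exact Or.inr (Or.inl ⟨1, by norm_num, by norm_num⟩)
    · exact Or.inr (Or.inl ⟨0, by norm_num, by norm_num⟩)
    · exact Or.inl ⟨1, by norm_num, by norm_num⟩
  by_cases h5 : k = 5
  · subst h5
    refine of_int' 5 (by norm_num)
      (fun i => if i = 0 then 1 else if i = 1 then 9 else if i = 2 then -2 else
        if i = 3 then 8 else -5)
      (fun c h1 h2 => ?_) 2 1 (by decide)
    have h2' : c ≤ 10 := by omega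
    interval_cases c
    · exact Or.inl ⟨0, by norm_num, by norm_num⟩
    · exact Or.inl ⟨2, by norm_num, by norm_num⟩
    · exact Or.inr (Or.inl ⟨3, by norm_num, by norm_num⟩)
    · exact Or.inr (Or.inr (by norm_num))
    · exact Or.inl ⟨4, by norm_num, by norm_num⟩
    · exact Or.inr (Or.inl ⟨2, by norm_num, by norm_num⟩)
    · exact Or.inr (Or.inl ⟨1, by norm_num, by norm_num⟩)
    · exact Or.inl ⟨3, by norm_num, by norm_num⟩
    · exact Or.inl ⟨1, by norm_num, by norm_num⟩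
    · exact Or.inr (Or.inl ⟨0, by norm_num, by norm_num⟩)
  have h : (∃ m, 2 ≤ m ∧ k = 4 * m) ∨ (∃ m, 1 ≤ m ∧ k = 4 * m + 2) ∨
      (∃ m, 3 ≤ m ∧ k = 2 * m + 1) := by
    by_cases hodd : k % 2 = 1
    · exact Or.inr (Or.inr ⟨k / 2, by omega, by omega⟩)
    · by_cases h4' : k % 4 = 0
      · exact Or.inl ⟨k / 4, by omega, by omega⟩
      · exact Or.inr (Or.inl ⟨k / 4, by omega, by omega⟩)
  rcases h with ⟨m, hm, rfl⟩ | ⟨m, hm, rfl⟩ | ⟨m, hm, rfl⟩
  · refine of_int' (4 * m) (by omega) (X0 m) (fun c h1 h2 => X0_cov m hm c h1 h2)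
      128 (16 * m - 1) ?_
    rw [X0_sum m hm]; push_cast; ring
  · refine of_int' (4 * m + 2) (by omega) (X2 m) (fun c h1 h2 => X2_cov m hm c h1 h2)
      128 (16 * m - 57) ?_
    rw [X2_sum m hm]; push_cast; ring
  · refine of_int' (2 * m + 1) (by omega) (X1 m) (fun c h1 h2 => X1_cov m hm c h1 h2)
      (-64) (8 * m - 77) ?_
    rw [X1_sum m hm]; push_cast; ring

end Pool.Agent.Results.MP_a9ea17_co.CyclicCover
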